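import Pool.Agent.H10.FEX.Stmts3
import Pool.Agent.H10.FEX.FI2

set_option autoImplicit false

namespace Pool.FEX

open Finset Pool.Agent.H98.ABCR Pool.SHA Pool.FEW

/-- the abc triples `(a, b, a + b)` with radical at most `X` and logarithmic height at most `H`,
for which, apart from a set `E` of at most `m` exponents, at most `k` primes `p ≤ D` occur -/
def TriD (X H D : ℝ) (m k : ℕ) : Set (ℕ × ℕ) :=
  {t | 0 < t.1 ∧ 0 < t.2 ∧ Nat.Coprime t.1 t.2 ∧
    ((∏ p ∈ (t.1 * t.2 * (t.1 + t.2)).primeFactors, p : ℕ) : ℝ) ≤ X ∧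
    (∃ E : Finset ℕ, E.card ≤ m ∧ ((t.1 * t.2 * (t.1 + t.2)).primeFactors.filter
      (fun p : ℕ => (p : ℝ) ≤ D ∧ (t.1 * t.2 * (t.1 + t.2)).factorization p ∉ E)).card ≤ k) ∧
    Real.log ((t.1 + t.2 : ℕ) : ℝ) ≤ H}

/-- the same with one of the three radicals at most `Y` -/
def TriDY (X Y H D : ℝ) (m k : ℕ) : Set (ℕ × ℕ) :=
  {t | t ∈ TriD X H D m k ∧ (((∏ p ∈ t.1.primeFactors, p : ℕ) : ℝ) ≤ Y ∨
    ((∏ p ∈ t.2.primeFactors, p : ℕ) : ℝ) ≤ Y ∨ ((∏ p ∈ (t.1 + t.2).primeFactors, p : ℕ) : ℝ) ≤ Y)}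

/-- the bases of the solutions of `A ^ x + B ^ y = C ^ z` with `ABC ≤ X` and logarithmic height
at most `H` -/
def Bases (X H : ℝ) : Set (ℕ × ℕ × ℕ) :=
  {w | 0 < w.1 ∧ 0 < w.2.1 ∧ 0 < w.2.2 ∧ Nat.Coprime w.1 w.2.1 ∧
    ((w.1 * w.2.1 * w.2.2 : ℕ) : ℝ) ≤ X ∧
    ∃ x y z : ℕ, 0 < x ∧ 0 < y ∧ 0 < z ∧ w.1 ^ x + w.2.1 ^ y = w.2.2 ^ z ∧
      Real.log ((w.2.2 ^ z : ℕ) : ℝ) ≤ H}

/-- the same with one of the three bases at most `Y` -/
def BasesY (X Y H : ℝ) : Set (ℕ × ℕ × ℕ) :=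
  {w | w ∈ Bases X H ∧ ((w.1 : ℝ) ≤ Y ∨ (w.2.1 : ℝ) ≤ Y ∨ (w.2.2 : ℝ) ≤ Y)}

theorem bases_finite (X H : ℝ) : (Bases X H).Finite := by
  refine Set.Finite.subset (((Finset.range (⌊X⌋₊ + 1)) ×ˢ
    ((Finset.range (⌊X⌋₊ + 1)) ×ˢ (Finset.range (⌊X⌋₊ + 1)))).finite_toSet) ?_
  rintro w ⟨h1, h2, h3, -, h5, -⟩
  have h7 : w.1 * w.2.1 * w.2.2 ≤ ⌊X⌋₊ := Nat.le_floor h5
  have e1 : w.1 ≤ w.1 * w.2.1 * w.2.2 := by
    rw [mul_assoc]; exact Nat.le_mul_of_pos_right _ (Nat.mul_pos h2 h3)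
  have e2 : w.2.1 ≤ w.1 * w.2.1 * w.2.2 := by
    calc w.2.1 ≤ w.1 * w.2.1 := Nat.le_mul_of_pos_left _ h1
      _ ≤ w.1 * w.2.1 * w.2.2 := Nat.le_mul_of_pos_right _ h3
  have e3 : w.2.2 ≤ w.1 * w.2.1 * w.2.2 := Nat.le_mul_of_pos_left _ (Nat.mul_pos h1 h2)
  rw [Finset.mem_coe, Finset.mem_product, Finset.mem_product, Finset.mem_range, Finset.mem_range,
    Finset.mem_range]
  exact ⟨by omega, by omega, by omega⟩

theorem triD_finite (X H D : ℝ) (m k : ℕ) : (TriD X H D m k).Finite := by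
  refine Set.Finite.subset (((Finset.range (⌊Real.exp H⌋₊ + 1)) ×ˢ
    (Finset.range (⌊Real.exp H⌋₊ + 1))).finite_toSet) ?_
  rintro t ⟨h1, h2, -, -, -, h5⟩
  have hpos : (0 : ℝ) < ((t.1 + t.2 : ℕ) : ℝ) := by exact_mod_cast (by omega : 0 < t.1 + t.2)
  have h6 : ((t.1 + t.2 : ℕ) : ℝ) ≤ Real.exp H := by
    rw [← Real.log_le_iff_le_exp hpos]; exact h5
  have h7 : t.1 + t.2 ≤ ⌊Real.exp H⌋₊ := Nat.le_floor h6
  rw [Finset.mem_coe, Finset.mem_product, Finset.mem_range, Finset.mem_range]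
  constructor <;> omega

/-- at most `log X / log D` primes `p > D` -/
theorem card_large (X D : ℝ) (n : ℕ) (hD : 1 < D)
    (hn : ((rad n : ℕ) : ℝ) ≤ X) :
    (n.primeFactors.filter (fun p : ℕ => D < (p : ℝ))).card ≤ ⌊Real.log X / Real.log D⌋₊ := by
  classical
  have hD0 : 0 < D := by linarith
  have hlog : 0 < Real.log D := Real.log_pos hD
  refine Nat.le_floor ?_
  rw [le_div_iff₀ hlog]
  set S := n.primeFactors.filter (fun p : ℕ => D < (p : ℝ)) with hS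
  have h1 : D ^ S.card ≤ ∏ p ∈ S, (p : ℝ) := by
    rw [← Finset.prod_const]
    refine Finset.prod_le_prod (fun _ _ => hD0.le) (fun p hp => ?_)
    exact (Finset.mem_filter.1 hp).2.le
  have h2 : ∏ p ∈ S, (p : ℝ) ≤ ((rad n : ℕ) : ℝ) := by
    unfold rad
    push_cast
    refine Finset.prod_le_prod_of_subset_of_one_le (Finset.filter_subset _ _)
      (fun p _ => Nat.cast_nonneg _) (fun p hp _ => ?_)
    exact_mod_cast (Nat.prime_of_mem_primeFactors hp).one_lt.le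
  have h3 : D ^ S.card ≤ X := h1.trans (h2.trans hn)
  have h4 := Real.log_le_log (by positivity) h3
  rwa [Real.log_pow] at h4

theorem triD_sub (X H D : ℝ) (m k : ℕ) (hD : 1 < D) :
    TriD X H D m k ⊆ Tri X H m (k + ⌊Real.log X / Real.log D⌋₊) := by
  classical
  rintro t ⟨h1, h2, h3, h4, ⟨E, hE, hc⟩, h6⟩
  refine ⟨h1, h2, h3, h4, ⟨E, hE, ?_⟩, h6⟩
  set n := t.1 * t.2 * (t.1 + t.2) with hn
  have h7 := card_large X D n hD h4
  have h8 : n.primeFactors.filter (fun p => n.factorization p ∉ E) ⊆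
      n.primeFactors.filter (fun p : ℕ => (p : ℝ) ≤ D ∧ n.factorization p ∉ E) ∪
      n.primeFactors.filter (fun p : ℕ => D < (p : ℝ)) := by
    intro p hp
    rw [Finset.mem_filter] at hp
    rw [Finset.mem_union, Finset.mem_filter, Finset.mem_filter]
    rcases le_or_gt (p : ℝ) D with h | h
    · exact Or.inl ⟨hp.1, h, hp.2⟩
    · exact Or.inr ⟨hp.1, h⟩
  calc _ ≤ _ := Finset.card_le_card h8
    _ ≤ _ := Finset.card_union_le _ _
    _ ≤ _ := Nat.add_le_add hc h7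

theorem triDY_sub (X Y H D : ℝ) (m k : ℕ) (hD : 1 < D) :
    TriDY X Y H D m k ⊆ TriY X Y H m (k + ⌊Real.log X / Real.log D⌋₊) :=
  fun _ ht => ⟨triD_sub X H D m k hD ht.1, ht.2⟩

/-- the large primes cost only `X ^ (A0 / A)` -/
theorem cost (X H A0 A : ℝ) (m k : ℕ) (hX : 3 ≤ X) (hH : 1 ≤ H) (hA0 : 1 ≤ A0) (hA : 0 < A) :
    Real.log (X * H) ^ (A0 * ((m : ℝ) +
      ((k + ⌊Real.log X / Real.log (Real.log (X * H) ^ A)⌋₊ : ℕ) : ℝ))) ≤
    X ^ (A0 / A) * Real.log (X * H) ^ (A0 * ((m : ℝ) + k)) := by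
  have hX0 : 0 < X := by linarith
  have hL : 1 < Real.log (X * H) := by
    have h1 : Real.exp 1 < X * H := by
      have := Real.exp_one_lt_d9
      nlinarith
    rwa [Real.lt_log_iff_exp_lt (by positivity)]
  set L := Real.log (X * H) with hLdef
  have hL0 : 0 < L := by linarith
  have hlL : 0 < Real.log L := Real.log_pos hL
  have hlX : 0 ≤ Real.log X := Real.log_nonneg (by linarith)
  rw [Real.log_rpow hL0]
  set K := ⌊Real.log X / (A * Real.log L)⌋₊ with hK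
  have hKle : (K : ℝ) ≤ Real.log X / (A * Real.log L) := Nat.floor_le (by positivity)
  push_cast
  have e1 : A0 * ((m : ℝ) + ((k : ℝ) + (K : ℝ))) = A0 * K + A0 * ((m : ℝ) + k) := by ring
  rw [e1, Real.rpow_add hL0]
  refine mul_le_mul_of_nonneg_right ?_ (Real.rpow_nonneg hL0.le _)
  rw [Real.rpow_def_of_pos hL0, Real.rpow_def_of_pos hX0]
  refine Real.exp_le_exp.2 ?_
  have e2 : Real.log L * (A0 * K) ≤ Real.log L * (A0 * (Real.log X / (A * Real.log L))) := by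
    gcongr
  refine e2.trans (le_of_eq ?_)
  field_simp

/-- one of three factors of a product `≤ X` is at most `X ^ (1/3)` -/
theorem one_small (X a b c : ℝ) (hX : 0 < X) (h : a * b * c ≤ X) :
    a ≤ X ^ (1 / 3 : ℝ) ∨ b ≤ X ^ (1 / 3 : ℝ) ∨ c ≤ X ^ (1 / 3 : ℝ) := by
  by_contra hcon
  push Not at hcon
  obtain ⟨q1, q2, q3⟩ := hcon
  have hpos : 0 < X ^ (1 / 3 : ℝ) := Real.rpow_pos_of_pos hX _
  have e4 : X = X ^ (1 / 3 : ℝ) * X ^ (1 / 3 : ℝ) * X ^ (1 / 3 : ℝ) := by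
    rw [← Real.rpow_add hX, ← Real.rpow_add hX]
    norm_num
  have e5 : X ^ (1 / 3 : ℝ) * X ^ (1 / 3 : ℝ) * X ^ (1 / 3 : ℝ) < a * b * c := by
    gcongr
  linarith

theorem third (X : ℝ) (ε : ℝ) (hX : 0 < X) (C L : ℝ) :
    C * X ^ (1 / 2 + ε) * (X ^ (1 / 3 : ℝ)) ^ (1 / 2 : ℝ) * L = C * X ^ (2 / 3 + ε) * L := by
  rw [← Real.rpow_mul hX.le, mul_assoc C, ← Real.rpow_add hX]
  congr 3
  ring

/-- The final statement, from the main theorems and the lower bound. -/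
theorem final3 (hM : S_MA2) (hL : S_LO2) (hG : S_GFE) :
    (∀ ε : ℝ, 0 < ε → ∃ A C c : ℝ, 0 < c ∧ ∀ (X H : ℝ) (m k : ℕ), 3 ≤ X → 1 ≤ H → 1 ≤ m →
      (m : ℝ) ≤ Real.log X ^ c → (TriD X H (Real.log (X * H) ^ A) m k).Finite ∧
      ((TriD X H (Real.log (X * H) ^ A) m k).ncard : ℝ) ≤
        C * X ^ (2 / 3 + ε) * Real.log (X * H) ^ (A * (m + k)) ∧
      ∀ Y : ℝ, 1 ≤ Y → ((TriDY X Y H (Real.log (X * H) ^ A) m k).ncard : ℝ) ≤
        C * X ^ (1 / 2 + ε) * Y ^ (1 / 2 : ℝ) * Real.log (X * H) ^ (A * (m + k))) ∧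
    (∃ c X₀ : ℝ, 0 < c ∧ ∀ (X Y H D : ℝ) (m k : ℕ), X₀ ≤ X → 1 ≤ Y → Y ≤ X ^ (1 / 3 : ℝ) →
      Real.log X ≤ H → 1 ≤ m → c * (X * Y) ^ (1 / 2 : ℝ) ≤ ((TriDY X Y H D m k).ncard : ℝ)) ∧
    (∀ ε : ℝ, 0 < ε → ∃ A C : ℝ, ∀ X H : ℝ, 3 ≤ X → 1 ≤ H → (Bases X H).Finite ∧
      ((Bases X H).ncard : ℝ) ≤ C * X ^ (2 / 3 + ε) * Real.log (X * H) ^ A ∧
      ∀ Y : ℝ, 1 ≤ Y → ((BasesY X Y H).ncard : ℝ) ≤
        C * X ^ (1 / 2 + ε) * Y ^ (1 / 2 : ℝ) * Real.log (X * H) ^ A) := by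
  classical
  refine ⟨?_, ?_, ?_⟩
  · intro ε hε
    obtain ⟨A0, C, c, hA0, hC, hc, h⟩ := hM (ε / 2) (by linarith)
    have hA1 : 0 < A0 * (1 + 2 / ε) := by positivity
    have hA2 : A0 ≤ A0 * (1 + 2 / ε) := by
      have : 0 < A0 * (2 / ε) := by positivity
      nlinarith
    have hA3 : A0 / (A0 * (1 + 2 / ε)) ≤ ε / 2 := by
      rw [div_le_iff₀ hA1]
      have e : ε / 2 * (A0 * (1 + 2 / ε)) = A0 + A0 * ε / 2 := by field_simp; ring
      rw [e]
      have : 0 < A0 * ε := by positivity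
      linarith
    set A := A0 * (1 + 2 / ε) with hAdef
    have key : ∀ (X H Y : ℝ) (m k : ℕ), 3 ≤ X → 1 ≤ H → 1 ≤ Y → 1 ≤ m →
        (m : ℝ) ≤ Real.log X ^ c → ((TriDY X Y H (Real.log (X * H) ^ A) m k).ncard : ℝ) ≤
        C * X ^ (1 / 2 + ε) * Y ^ (1 / 2 : ℝ) * Real.log (X * H) ^ (A * (m + k)) := by
      intro X H Y m k hX hH hY hm hmc
      have hX0 : 0 < X := by linarith
      have hX1 : 1 ≤ X := by linarith
      have hY0 : 0 < Y := by linarith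
      have hL1 : 1 < Real.log (X * H) := by
        have h1 : Real.exp 1 < X * H := by
          have := Real.exp_one_lt_d9
          nlinarith
        rwa [Real.lt_log_iff_exp_lt (by positivity)]
      have hD : 1 < Real.log (X * H) ^ A := Real.one_lt_rpow hL1 hA1
      set K := k + ⌊Real.log X / Real.log (Real.log (X * H) ^ A)⌋₊ with hK
      have hfin := (tri_finite X H m K).subset (triY_sub X Y H m K)
      have h1 := h X H Y m K hfin.toFinset hX hH hY hm hmc (fun v hv => by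
        rw [Set.Finite.mem_toFinset] at hv
        obtain ⟨⟨h1, h2, h3, h4, h5, h6⟩, h7⟩ := hv
        refine ⟨⟨h1, h2, h3⟩, h4, ?_, h5, h6⟩
        rcases h7 with h7 | h7 | h7
        · exact ⟨0, h7⟩
        · exact ⟨1, h7⟩
        · exact ⟨2, h7⟩)
      rw [← Set.ncard_eq_toFinset_card _ hfin] at h1
      have h2 : ((TriDY X Y H (Real.log (X * H) ^ A) m k).ncard : ℝ) ≤
          ((TriY X Y H m K).ncard : ℝ) := by
        exact_mod_cast Set.ncard_le_ncard (triDY_sub X Y H _ m k hD) hfin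
      have h3 := cost X H A0 A m k hX hH hA0 hA1
      rw [← hK] at h3
      have h4 : X ^ (A0 / A) ≤ X ^ (ε / 2) := Real.rpow_le_rpow_of_exponent_le hX1 hA3
      have h5 : Real.log (X * H) ^ (A0 * ((m : ℝ) + k)) ≤ Real.log (X * H) ^ (A * ((m : ℝ) + k)) := by
        refine Real.rpow_le_rpow_of_exponent_le hL1.le ?_
        have : (0 : ℝ) ≤ (m : ℝ) + k := by positivity
        nlinarith
      calc ((TriDY X Y H (Real.log (X * H) ^ A) m k).ncard : ℝ)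
          ≤ C * X ^ (ε / 2) * Real.sqrt (X * Y) * Real.log (X * H) ^ (A0 * ((m : ℝ) + (K : ℝ))) :=
            h2.trans h1
        _ ≤ C * X ^ (ε / 2) * Real.sqrt (X * Y) *
            (X ^ (ε / 2) * Real.log (X * H) ^ (A * ((m : ℝ) + k))) := by
            refine mul_le_mul_of_nonneg_left (h3.trans ?_) (by positivity)
            exact mul_le_mul h4 h5 (Real.rpow_nonneg (by linarith) _) (by positivity)
        _ = C * X ^ (1 / 2 + ε) * Y ^ (1 / 2 : ℝ) * Real.log (X * H) ^ (A * (m + k)) := by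
            have e1 : X ^ (1 / 2 + ε) = X ^ (1 / 2 : ℝ) * (X ^ (ε / 2) * X ^ (ε / 2)) := by
              rw [← Real.rpow_add hX0, ← Real.rpow_add hX0]
              congr 1
              ring
            rw [Real.sqrt_eq_rpow, Real.mul_rpow hX0.le hY0.le, e1]
            ring
    refine ⟨A, C, c, hc, fun X H m k hX hH hm hmc =>
      ⟨triD_finite X H _ m k, ?_, fun Y hY => key X H Y m k hX hH hY hm hmc⟩⟩
    have hX0 : 0 < X := by linarith
    have hX1 : 1 ≤ X := by linarith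
    have h2 := key X H (X ^ (1 / 3 : ℝ)) m k hX hH (Real.one_le_rpow hX1 (by norm_num)) hm hmc
    rw [third X ε hX0] at h2
    refine le_trans ?_ h2
    have h3 : TriD X H (Real.log (X * H) ^ A) m k ⊆
        TriDY X (X ^ (1 / 3 : ℝ)) H (Real.log (X * H) ^ A) m k := by
      intro t ht
      refine ⟨ht, ?_⟩
      obtain ⟨p1, p2, p3, p4, -, -⟩ := ht
      have e1 := rad_mul3' t ⟨p1, p2, p3⟩
      have e2 : ((rad (nn t) : ℕ) : ℝ) ≤ X := p4
      rw [e1] at e2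
      have e3 : ((rad (coord t 0) * rad (coord t 1) * rad (coord t 2) : ℕ) : ℝ) =
          (rad t.1 : ℝ) * (rad t.2 : ℝ) * (rad (t.1 + t.2) : ℝ) := by
        push_cast
        rfl
      rw [e3] at e2
      exact one_small X _ _ _ hX0 e2
    exact_mod_cast Set.ncard_le_ncard h3 ((triD_finite X H _ m k).subset fun _ h => h.1)
  · obtain ⟨c, X0, hc, hX0, h⟩ := hL
    refine ⟨c, X0, hc, fun X Y H D m k hX hY hYX hH hm => ?_⟩
    obtain ⟨F, hF, hv⟩ := h X Y hX hY hYX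
    have h1 : (F : Set (ℕ × ℕ)) ⊆ TriDY X Y H D m k := by
      intro v hvF
      obtain ⟨⟨p1, p2, p3⟩, p4, p5, p6, p7⟩ := hv v hvF
      refine ⟨⟨p1, p2, p3, p4, ⟨{1}, by simpa using hm, ?_⟩, p7.trans hH⟩, Or.inl p5⟩
      have h0 : ((v.1 * v.2 * (v.1 + v.2)).primeFactors.filter
          (fun p : ℕ => (p : ℝ) ≤ D ∧
            (v.1 * v.2 * (v.1 + v.2)).factorization p ∉ ({1} : Finset ℕ))) = ∅ := by
        rw [Finset.filter_eq_empty_iff]
        rintro p hp ⟨-, hp2⟩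
        refine hp2 ?_
        rw [Finset.mem_singleton]
        have hpp := Nat.prime_of_mem_primeFactors hp
        have hd := Nat.dvd_of_mem_primeFactors hp
        have hn0 : v.1 * v.2 * (v.1 + v.2) ≠ 0 := (Nat.mem_primeFactors.1 hp).2.2
        have h2 : (v.1 * v.2 * (v.1 + v.2)).factorization p ≤ 1 := Squarefree.natFactorization_le_one p p6
        have h3 := (hpp.dvd_iff_one_le_factorization hn0).1 hd
        omega
      rw [h0, Finset.card_empty]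
      exact Nat.zero_le k
    have h2 : ((F : Set (ℕ × ℕ)).ncard : ℝ) ≤ ((TriDY X Y H D m k).ncard : ℝ) := by
      exact_mod_cast Set.ncard_le_ncard h1 ((triD_finite X H D m k).subset fun _ h => h.1)
    rw [Set.ncard_coe_finset] at h2
    rw [← Real.sqrt_eq_rpow]
    exact hF.trans h2
  · intro ε hε
    obtain ⟨A, C, hA, hC, h⟩ := hG ε hε
    have key : ∀ X H Y : ℝ, 3 ≤ X → 1 ≤ H → 1 ≤ Y → ((BasesY X Y H).ncard : ℝ) ≤
        C * X ^ (1 / 2 + ε) * Y ^ (1 / 2 : ℝ) * Real.log (X * H) ^ A := by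
      intro X H Y hX hH hY
      have hX0 : 0 < X := by linarith
      have hY0 : 0 < Y := by linarith
      have hfin : (BasesY X Y H).Finite := (bases_finite X H).subset fun _ h => h.1
      have h1 := h X H Y hfin.toFinset hX hH hY (fun w hw => by
        rw [Set.Finite.mem_toFinset] at hw
        obtain ⟨⟨h1, h2, h3, h4, h5, h6⟩, h7⟩ := hw
        exact ⟨h1, h2, h3, h4, h5, h7, h6⟩)
      rw [← Set.ncard_eq_toFinset_card _ hfin] at h1
      refine h1.trans (le_of_eq ?_)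
      rw [Real.sqrt_eq_rpow, Real.mul_rpow hX0.le hY0.le, Real.rpow_add hX0]
      ring
    refine ⟨A, C, fun X H hX hH => ⟨bases_finite X H, ?_, fun Y hY => key X H Y hX hH hY⟩⟩
    have hX0 : 0 < X := by linarith
    have hX1 : 1 ≤ X := by linarith
    have h2 := key X H (X ^ (1 / 3 : ℝ)) hX hH (Real.one_le_rpow hX1 (by norm_num))
    rw [third X ε hX0] at h2
    refine le_trans ?_ h2
    have h3 : Bases X H ⊆ BasesY X (X ^ (1 / 3 : ℝ)) H := by
      intro w hw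
      refine ⟨hw, ?_⟩
      obtain ⟨-, -, -, -, p5, -⟩ := hw
      push_cast at p5
      exact one_small X _ _ _ hX0 p5
    exact_mod_cast Set.ncard_le_ncard h3 ((bases_finite X H).subset fun _ h => h.1)

end Pool.FEX
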