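import Pool.Agent.H10.FEW.All
import Pool.Agent.H10.FEX.FI3
import Pool.Agent.H2.FEX.ML2
import Pool.Agent.H2.FEX.OMB
import Pool.Agent.H25.FEX.PFC
import Pool.Agent.H45.FEX.ON3
import Pool.Agent.H59.FEX.LO2
import Pool.Agent.H59.FEX.MA3
import Pool.Agent.H80.FEX.RE3
import Pool.Agent.H82.FEX.FC2
import Pool.Agent.H82.FEX.MO2
import Pool.Agent.H98.FEX.GFE

set_option autoImplicit false

namespace Pool.FEX

open Pool.Agent.H98.ABCR Pool.FEW

/-- tuples of integers with a fixed code -/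
theorem all_FC2 : S_FC2 := fc2_thm en_thm mo2_thm rlc_thm csb_thm

/-- one pair `(e, M)` -/
theorem all_ON3 : S_ON3 := on3_thm all_FC2 num_thm pfc_thm ml2_thm omb_thm all_TOT

/-- the main theorem for representations -/
theorem all_MA3 : S_MA3 := ma3_thm all_FAM all_ON3 all_TOT

/-- the main theorem for few exponents -/
theorem all_MA2 : S_MA2 := by
  intro ε hε
  obtain ⟨A, C, c, hA, hC, hc, h⟩ := all_MA3 ε hε
  refine ⟨A, C, c, hA, hC, hc, fun X H Y m k F hX hH hY hm hmc hF =>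
    h X H Y m k F hX hH hY hm hmc fun v hv => ?_⟩
  obtain ⟨h1, h2, h3, h4, h5⟩ := hF v hv
  exact ⟨h1, re3_thm m k v X Y h1 h4 h2 h3, h5⟩

/-- the equation `A ^ x + B ^ y = C ^ z` -/
theorem all_GFE : S_GFE := gfe_thm all_MA3

end Pool.FEX
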