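import Pool.Agent.H10.FEW.Stmts

/-!
# FEX: abc triples with few exponents, all heights (generalisation of FEW)

Proofs in words: `/team-store/FEX_PLAN_helper10.md`.  Module `XXX` is a theorem
`xxx_thm (h1 : S_AAA) ... : S_XXX` in `Pool/Agent/H<k>/FEX/XXX.lean` (import this file,
namespace `Pool.FEX`).
-/

set_option autoImplicit false

namespace Pool.FEX

open Finset Pool.Agent.H98.ABCR Pool.SHA Pool.FEW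

/-- for a set `E` of at most `m` exponents, at most `k` primes dividing `n` have an exponent
outside `E` -/
def FewExp (m k n : ℕ) : Prop := ∃ E : Finset ℕ, E.card ≤ m ∧
  (n.primeFactors.filter (fun p => n.factorization p ∉ E)).card ≤ k

/-- `C ^ ω(R)` is small -/
def S_OMB : Prop := ∀ C ε : ℝ, 1 ≤ C → 0 < ε → ∃ C' : ℝ, 1 ≤ C' ∧ ∀ R : ℕ, 1 ≤ R →
  C ^ (om R + 1) ≤ C' * (R : ℝ) ^ ε

/-- ordered factorisations into primes -/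
def S_PFC : Prop := ∀ (t : ℕ) (U : Finset ℕ), (∀ q ∈ U, q.Prime) → ∀ N : ℕ,
  ((Fintype.piFinset fun _ : Fin t => U).filter (fun w => ∏ i, w i = N)).card ≤ t.factorial

/-- ordered factorisations into not too many integers -/
def S_ML2 : Prop := ∀ ε : ℝ, 0 < ε → ∃ c X0 : ℝ, 0 < c ∧ 3 ≤ X0 ∧
  ∀ (X : ℝ) (P t : ℕ) (U : Finset ℕ), X0 ≤ X → 1 ≤ t → (t : ℝ) ≤ Real.log X ^ c →
  (P : ℝ) ≤ X → (P : ℝ) ^ (t - 1) < X → (∀ q ∈ U, 0 < q ∧ q < 2 * P) →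
  (2 * (P : ℝ)) ^ t ≤ X ^ 3 ∧ ∀ N : ℕ,
    (((Fintype.piFinset fun _ : Fin t => U).filter (fun w => ∏ i, w i = N)).card : ℝ) ≤ X ^ ε

/-- moments of one factor -/
def S_MO2 : Prop := ∀ (e r P t : ℕ) (M U : Finset ℕ) (Φ : ℝ), 0 < e →
  (∀ l ∈ M, l.Prime ∧ e ∣ l - 1) → (∀ q ∈ U, 0 < q ∧ q < 2 * P) → (∀ q ∈ U, ∀ l ∈ M, ¬ l ∣ q) →
  (2 * P) ^ t ≤ ∏ l ∈ M, l →
  (∀ N : ℕ, (((Fintype.piFinset fun _ : Fin t => U).filter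
    (fun w => ∏ i, w i = N)).card : ℝ) ≤ Φ) →
  ((((Fintype.piFinset fun _ : Fin t => U) ×ˢ (Fintype.piFinset fun _ : Fin t => U)).filter
    (fun w => ∀ l ∈ M, (∏ i, w.1 i) ^ (r * ((l - 1) / e)) ≡
      (∏ i, w.2 i) ^ (r * ((l - 1) / e)) [MOD l])).card : ℝ) ≤
    2 * (∏ l ∈ M, ((((l - 1) / e : ℕ) : ℝ) * (Nat.gcd r e : ℝ))) * (U.card : ℝ) ^ t * Φ

/-- number of tuples of integers with a fixed code -/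
def S_FC2 : Prop := ∀ (ι : Type) [Fintype ι] [DecidableEq ι] (e : ℕ) (M : Finset ℕ)
  (tt : ι → Fin 3) (r P : ι → ℕ) (U : ι → Finset ℕ) (J : Finset ι) (T : Finset (ι → ℕ))
  (i0 : Fin 3) (g Φ X : ℝ), 0 < e → (∀ l ∈ M, l.Prime ∧ e ∣ l - 1) → 1 ≤ g → 1 ≤ Φ →
  (∀ j, j ∉ J → (U j).card ≤ 1) →
  (∀ j ∈ J, 2 ≤ P j ∧ ∀ q ∈ U j, P j ≤ q ∧ q < 2 * P j) →
  (∀ j, ∀ q ∈ U j, ∀ l ∈ M, ¬ l ∣ q) → (∀ j ∈ J, (Nat.gcd (r j) e : ℝ) ≤ g) →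
  ∏ j ∈ J, (P j : ℝ) ≤ X →
  (∀ j ∈ J, ∀ t : ℕ, 1 ≤ t → (P j : ℝ) ^ (t - 1) < X →
    (2 * (P j : ℝ)) ^ t ≤ ∏ l ∈ M, (l : ℝ) ∧ ∀ N : ℕ,
    (((Fintype.piFinset fun _ : Fin t => U j).filter (fun w => ∏ i, w i = N)).card : ℝ) ≤ Φ) →
  (∀ p ∈ T, (∀ j, p j ∈ U j) ∧ ∃ x : ι → ℕ, (∀ j, x j % e = r j % e) ∧
    ∏ j ∈ univ.filter (fun j => tt j = 0), p j ^ x j +
      ∏ j ∈ univ.filter (fun j => tt j = 1), p j ^ x j =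
      ∏ j ∈ univ.filter (fun j => tt j = 2), p j ^ x j) →
  (T.card : ℝ) ≤ 4 * Φ * (∏ l ∈ M, (((l - 1) / e : ℕ) : ℝ)) ^ 2 * g ^ M.card *
    Real.sqrt (X * ∏ j ∈ J.filter (fun j => tt j = i0), (P j : ℝ))

/-- a triple with few exponents as a vector: first the products of the primes with the same
exponent in the same coordinate, then the exceptional primes -/
def S_RE2 : Prop := ∀ (m k : ℕ) (v : ℕ × ℕ), IsTri v → FewExp m k (nn v) →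
  ∃ (p x : (Fin 3 × Fin m) ⊕ Fin k → ℕ) (tt : (Fin 3 × Fin m) ⊕ Fin k → Fin 3),
    (∀ i, coord v i = ∏ j ∈ univ.filter (fun j => tt j = i), p j ^ x j) ∧
    (∀ i, rad (coord v i) = ∏ j ∈ univ.filter (fun j => tt j = i), p j) ∧ RR v = ∏ j, p j ∧
    (∀ j, p j ≠ 1 → ∃ q ∈ (nn v).primeFactors, x j = (nn v).factorization q) ∧
    ∀ b, p (Sum.inr b) = 1 ∨ (p (Sum.inr b)).Prime

/-- triples with a common good pair `(e, M)` -/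
def S_ON2 : Prop := ∀ ε : ℝ, 0 < ε → ∃ σ c : ℝ, 0 < σ ∧ σ < 1 ∧ 0 < c ∧ ∀ A1 : ℝ, 1 ≤ A1 →
  ∃ A X0 : ℝ, 1 ≤ A ∧ 3 ≤ X0 ∧
  ∀ (X H Y y : ℝ) (m k e : ℕ) (M : Finset ℕ) (F : Finset (ℕ × ℕ)),
    X0 ≤ X → 1 ≤ H → 1 ≤ Y → 1 ≤ m → (m : ℝ) ≤ Real.log X ^ c → 64 ≤ y ^ σ → Real.log X ≤ y →
    y ≤ Real.log (X * H) ^ A1 → GM X y σ e M →
    (∀ v ∈ F, IsTri v ∧ (RR v : ℝ) ≤ X ∧ (∃ i, (rad (coord v i) : ℝ) ≤ Y) ∧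
      FewExp m k (nn v) ∧ Gd y σ e M v) →
    (F.card : ℝ) ≤ X ^ ε * Real.sqrt (X * Y) * Real.log (X * H) ^ (A * ((m : ℝ) + k))

/-- MAIN THEOREM, upper bound -/
def S_MA2 : Prop := ∀ ε : ℝ, 0 < ε → ∃ A C c : ℝ, 1 ≤ A ∧ 1 ≤ C ∧ 0 < c ∧
  ∀ (X H Y : ℝ) (m k : ℕ) (F : Finset (ℕ × ℕ)), 3 ≤ X → 1 ≤ H → 1 ≤ Y → 1 ≤ m →
    (m : ℝ) ≤ Real.log X ^ c →
    (∀ v ∈ F, IsTri v ∧ (RR v : ℝ) ≤ X ∧ (∃ i, (rad (coord v i) : ℝ) ≤ Y) ∧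
      FewExp m k (nn v) ∧ hh v ≤ H) →
    (F.card : ℝ) ≤ C * X ^ ε * Real.sqrt (X * Y) * Real.log (X * H) ^ (A * ((m : ℝ) + k))

/-- lower bound -/
def S_LO2 : Prop := ∃ c X0 : ℝ, 0 < c ∧ 3 ≤ X0 ∧ ∀ X Y : ℝ, X0 ≤ X → 1 ≤ Y →
  Y ≤ X ^ (1 / 3 : ℝ) → ∃ F : Finset (ℕ × ℕ), c * Real.sqrt (X * Y) ≤ (F.card : ℝ) ∧
    ∀ v ∈ F, IsTri v ∧ (RR v : ℝ) ≤ X ∧ (rad v.1 : ℝ) ≤ Y ∧ Squarefree (nn v) ∧
      hh v ≤ Real.log X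

end Pool.FEX
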