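import Pool.Agent.H10.FEX.Stmts

/-!
# FEX, version 3: products of powers of pairwise coprime integers
-/

set_option autoImplicit false

namespace Pool.FEX

open Finset Pool.Agent.H98.ABCR Pool.SHA Pool.FEW

/-- the coordinates of `v` are products of powers of pairwise coprime integers `p j`, of which
those with index `Sum.inr b` are primes (or `1`); product of the `p j` at most `X`,
product of the `p j` of one coordinate at most `Y` -/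
def Rp (m k : ℕ) (v : ℕ × ℕ) (X Y : ℝ) : Prop :=
  ∃ (p x : (Fin 3 × Fin m) ⊕ Fin k → ℕ) (tt : (Fin 3 × Fin m) ⊕ Fin k → Fin 3),
    (∀ i, coord v i = ∏ j ∈ univ.filter (fun j => tt j = i), p j ^ x j) ∧
    (∀ j, p j = 1 ∨ 0 < x j) ∧ (∀ j j', j ≠ j' → Nat.Coprime (p j) (p j')) ∧
    (∀ b, p (Sum.inr b) = 1 ∨ (p (Sum.inr b)).Prime) ∧
    ((∏ j, p j : ℕ) : ℝ) ≤ X ∧ ∃ i, ((∏ j ∈ univ.filter (fun j => tt j = i), p j : ℕ) : ℝ) ≤ Y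

/-- few exponents give a representation (from S_RE2: `RR v = ∏ p j` is squarefree) -/
def S_RE3 : Prop := ∀ (m k : ℕ) (v : ℕ × ℕ) (X Y : ℝ), IsTri v → FewExp m k (nn v) →
  (RR v : ℝ) ≤ X → (∃ i, (rad (coord v i) : ℝ) ≤ Y) → Rp m k v X Y

/-- triples with a common good pair `(e, M)`, for representations -/
def S_ON3 : Prop := ∀ ε : ℝ, 0 < ε → ∃ σ c : ℝ, 0 < σ ∧ σ < 1 ∧ 0 < c ∧ ∀ A1 : ℝ, 1 ≤ A1 →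
  ∃ A X0 : ℝ, 1 ≤ A ∧ 3 ≤ X0 ∧
  ∀ (X H Y y : ℝ) (m k e : ℕ) (M : Finset ℕ) (F : Finset (ℕ × ℕ)),
    X0 ≤ X → 1 ≤ H → 1 ≤ Y → 1 ≤ m → (m : ℝ) ≤ Real.log X ^ c → 64 ≤ y ^ σ → Real.log X ≤ y →
    y ≤ Real.log (X * H) ^ A1 → GM X y σ e M →
    (∀ v ∈ F, IsTri v ∧ Rp m k v X Y ∧ Gd y σ e M v) →
    (F.card : ℝ) ≤ X ^ ε * Real.sqrt (X * Y) * Real.log (X * H) ^ (A * ((m : ℝ) + k))

/-- MAIN THEOREM, upper bound, for representations -/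
def S_MA3 : Prop := ∀ ε : ℝ, 0 < ε → ∃ A C c : ℝ, 1 ≤ A ∧ 1 ≤ C ∧ 0 < c ∧
  ∀ (X H Y : ℝ) (m k : ℕ) (F : Finset (ℕ × ℕ)), 3 ≤ X → 1 ≤ H → 1 ≤ Y → 1 ≤ m →
    (m : ℝ) ≤ Real.log X ^ c → (∀ v ∈ F, IsTri v ∧ Rp m k v X Y ∧ hh v ≤ H) →
    (F.card : ℝ) ≤ C * X ^ ε * Real.sqrt (X * Y) * Real.log (X * H) ^ (A * ((m : ℝ) + k))

/-- the equation `A ^ x + B ^ y = C ^ z` with all exponents and all bases free -/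
def S_GFE : Prop := ∀ ε : ℝ, 0 < ε → ∃ A C : ℝ, 1 ≤ A ∧ 1 ≤ C ∧
  ∀ (X H Y : ℝ) (F : Finset (ℕ × ℕ × ℕ)), 3 ≤ X → 1 ≤ H → 1 ≤ Y →
    (∀ w ∈ F, 0 < w.1 ∧ 0 < w.2.1 ∧ 0 < w.2.2 ∧ Nat.Coprime w.1 w.2.1 ∧
      ((w.1 * w.2.1 * w.2.2 : ℕ) : ℝ) ≤ X ∧ ((w.1 : ℝ) ≤ Y ∨ (w.2.1 : ℝ) ≤ Y ∨ (w.2.2 : ℝ) ≤ Y) ∧
      ∃ x y z : ℕ, 0 < x ∧ 0 < y ∧ 0 < z ∧ w.1 ^ x + w.2.1 ^ y = w.2.2 ^ z ∧
        Real.log ((w.2.2 ^ z : ℕ) : ℝ) ≤ H) →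
    (F.card : ℝ) ≤ C * X ^ ε * Real.sqrt (X * Y) * Real.log (X * H) ^ A

end Pool.FEX
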